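import Mathlib

/-! Blocks of fast growing length and the ultrafilters attached to them. -/

namespace Pool.Agent.H110.PC

open Filter Set

/-- Left end points of the blocks. -/
def bl : ℕ → ℕ
  | 0 => 0
  | n + 1 => (n + 2) * (bl n + 1)

lemma bl_succ (n : ℕ) : bl (n + 1) = (n + 2) * (bl n + 1) := rfl

lemma bl_lt (n : ℕ) : bl n < bl (n + 1) := by
  rw [bl_succ]; nlinarith

lemma bl_strictMono : StrictMono bl := strictMono_nat_of_lt_succ bl_lt

lemma le_bl (n : ℕ) : n ≤ bl n := bl_strictMono.le_apply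

lemma exists_lt_bl (t : ℕ) : ∃ n, t < bl (n + 1) := ⟨t, lt_of_lt_of_le (Nat.lt_succ_self t) (le_bl _)⟩

/-- The number of the block containing `t`. -/
noncomputable def pr (t : ℕ) : ℕ := by
  classical exact Nat.find (exists_lt_bl t)

lemma pr_eq_iff (t n : ℕ) : pr t = n ↔ bl n ≤ t ∧ t < bl (n + 1) := by
  classical
  unfold pr
  rw [Nat.find_eq_iff]
  constructor
  · rintro ⟨h1, h2⟩
    refine ⟨?_, h1⟩
    rcases n with _ | n
    · simp [bl]
    · exact not_lt.mp (h2 n (Nat.lt_succ_self n))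
  · rintro ⟨h1, h2⟩
    refine ⟨h2, fun m hm h => ?_⟩
    exact absurd (lt_of_lt_of_le h (bl_strictMono.monotone hm)) (not_lt.mpr h1)

/-- The block number `n`. -/
def blk (n : ℕ) : Finset ℕ := Finset.Ico (bl n) (bl (n + 1))

lemma mem_blk (n t : ℕ) : t ∈ blk n ↔ pr t = n := by
  rw [pr_eq_iff, blk, Finset.mem_Ico]

lemma card_blk (n : ℕ) : (n + 1) * (bl n + 1) < (blk n).card + 1 := by
  rw [blk, Nat.card_Ico, bl_succ]
  have : (n + 2) * (bl n + 1) = (n + 1) * (bl n + 1) + (bl n + 1) := by ring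
  omega

lemma blk_finite (n : ℕ) (X : Set ℕ) : ((blk n : Set ℕ) \ X).Finite :=
  (Finset.finite_toSet _).subset Set.sdiff_subset

/-- Filter of the sets missing only few points in each block. -/
def big : Filter ℕ where
  sets := {X | ∃ k, ∀ n, ((blk n : Set ℕ) \ X).ncard ≤ k * (bl n + 1)}
  univ_sets := ⟨0, fun n => by simp⟩
  sets_of_superset := by
    rintro X Y ⟨k, hk⟩ hXY
    exact ⟨k, fun n => le_trans (Set.ncard_le_ncard (Set.sdiff_subset_sdiff_right hXY)
      (blk_finite n X)) (hk n)⟩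
  inter_sets := by
    rintro X Y ⟨k, hk⟩ ⟨l, hl⟩
    refine ⟨k + l, fun n => ?_⟩
    calc ((blk n : Set ℕ) \ (X ∩ Y)).ncard
        = (((blk n : Set ℕ) \ X) ∪ ((blk n : Set ℕ) \ Y)).ncard := by rw [Set.sdiff_inter]
      _ ≤ _ := Set.ncard_union_le _ _
      _ ≤ k * (bl n + 1) + l * (bl n + 1) := add_le_add (hk n) (hl n)
      _ = (k + l) * (bl n + 1) := by ring

lemma mem_big (X : Set ℕ) :
    X ∈ big ↔ ∃ k, ∀ n, ((blk n : Set ℕ) \ X).ncard ≤ k * (bl n + 1) := Iff.rfl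

lemma big_neBot (u : Ultrafilter ℕ) (hu : (u : Filter ℕ) ≤ cofinite) :
    NeBot (big ⊓ comap pr (u : Filter ℕ)) := by
  rw [← forall_mem_nonempty_iff_neBot]
  intro s hs
  rw [mem_inf_iff_superset] at hs
  obtain ⟨X, hX, V, hV, hs⟩ := hs
  rw [mem_comap] at hV
  obtain ⟨U, hU, hUV⟩ := hV
  obtain ⟨k, hk⟩ := hX
  -- pick n ∈ U with n ≥ k
  have h1 : ∃ n ∈ U, k ≤ n := by
    have hco : {n : ℕ | k ≤ n} ∈ (cofinite : Filter ℕ) := by
      rw [mem_cofinite]
      exact (Set.finite_lt_nat k).subset (fun n hn => by simpa using hn)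
    have := u.nonempty_of_mem (inter_mem hU (hu hco))
    obtain ⟨n, hn⟩ := this
    exact ⟨n, hn.1, hn.2⟩
  obtain ⟨n, hnU, hkn⟩ := h1
  have h2 : ((blk n : Set ℕ) \ X).ncard < (blk n).card := by
    have := hk n
    have h3 := card_blk n
    have h4 : k * (bl n + 1) ≤ n * (bl n + 1) := Nat.mul_le_mul_right _ hkn
    have h5 : (n + 1) * (bl n + 1) = n * (bl n + 1) + (bl n + 1) := by ring
    omega
  have h3 : ∃ t ∈ blk n, t ∈ X := by
    by_contra h
    push Not at h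
    have : ((blk n : Set ℕ) \ X) = (blk n : Set ℕ) := by
      ext t
      simp only [Set.mem_sdiff, Finset.mem_coe, and_iff_left_iff_imp]
      exact h t
    rw [this, Set.ncard_coe_finset] at h2
    exact lt_irrefl _ h2
  obtain ⟨t, ht, htX⟩ := h3
  refine ⟨t, hs ⟨htX, hUV ?_⟩⟩
  rw [mem_blk] at ht
  show pr t ∈ U
  rw [ht]; exact hnU

/-- A block ultrafilter over the ultrafilter `u`. -/
lemma exists_block_ultrafilter (u : Ultrafilter ℕ) (hu : (u : Filter ℕ) ≤ cofinite) :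
    ∃ q : Ultrafilter ℕ, (∀ S : Set ℕ, pr ⁻¹' S ∈ q ↔ S ∈ u) ∧ (∀ X ∈ big, X ∈ q) ∧
      (q : Filter ℕ) ≤ cofinite := by
  have := big_neBot u hu
  refine ⟨Ultrafilter.of (big ⊓ comap pr (u : Filter ℕ)), ?_, ?_, ?_⟩
  · have h : ∀ S : Set ℕ, S ∈ u → pr ⁻¹' S ∈ Ultrafilter.of (big ⊓ comap pr (u : Filter ℕ)) := by
      intro S hS
      apply Ultrafilter.of_le
      exact mem_inf_of_right (preimage_mem_comap hS)
    intro S
    refine ⟨fun hS => ?_, h S⟩
    by_contra hn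
    have h2 := h Sᶜ (Ultrafilter.compl_mem_iff_notMem.mpr hn)
    rw [preimage_compl] at h2
    exact Ultrafilter.compl_mem_iff_notMem.mp h2 hS
  · intro X hX
    apply Ultrafilter.of_le
    exact mem_inf_of_left hX
  · intro X hX
    apply Ultrafilter.of_le
    apply mem_inf_of_left
    rw [mem_cofinite] at hX
    refine ⟨Xᶜ.ncard, fun n => ?_⟩
    calc ((blk n : Set ℕ) \ X).ncard ≤ Xᶜ.ncard :=
          Set.ncard_le_ncard (fun t ht => ht.2) hX
      _ ≤ Xᶜ.ncard * (bl n + 1) := Nat.le_mul_of_pos_right _ (Nat.succ_pos _)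

end Pool.Agent.H110.PC
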