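import Mathlib
import Pool.Agent.H110.PC.Blocks

/-! Greedy independent subfamilies, and the selection lemma for countably many block ultrafilters. -/

namespace Pool.Agent.H110.PC

open Filter Set

section greedy

variable {V : Type*} [AddCommGroup V] [Module (ZMod 2) V]

/-- Greedy independent subset of the indices. -/
def kept (v : ℕ → V) : Set ℕ := {t | v t ∉ Submodule.span (ZMod 2) (v '' Set.Iio t)}

lemma kept_li (v : ℕ → V) : LinearIndependent (ZMod 2) (fun t : kept v => v t) := by
  classical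
  rw [linearIndependent_iff']
  intro s g hsum
  by_contra hne
  push Not at hne
  have hne' : (s.filter (fun i => g i ≠ 0)).Nonempty := by
    obtain ⟨i, hi, hgi⟩ := hne
    exact ⟨i, Finset.mem_filter.mpr ⟨hi, hgi⟩⟩
  obtain ⟨m, hm, hmax⟩ := Finset.exists_max_image _ (fun i : kept v => (i : ℕ)) hne'
  apply m.2
  have hsum2 : ∑ i ∈ s.filter (fun i => g i ≠ 0), g i • v i = 0 := by
    rw [← hsum]
    apply Finset.sum_filter_of_ne
    intro i _ hi h0
    exact hi (by rw [h0, zero_smul])
  rw [← Finset.add_sum_erase _ _ hm] at hsum2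
  have hgm : g m = 1 := by
    have h := (Finset.mem_filter.mp hm).2
    have : ∀ x : ZMod 2, x ≠ 0 → x = 1 := by decide
    exact this _ h
  rw [hgm, one_smul] at hsum2
  rw [eq_neg_of_add_eq_zero_left hsum2]
  apply Submodule.neg_mem
  apply Submodule.sum_mem
  intro i hi
  apply Submodule.smul_mem
  apply Submodule.subset_span
  refine ⟨i, ?_, rfl⟩
  have h1 := hmax i (Finset.mem_of_mem_erase hi)
  have h2 := Finset.ne_of_mem_erase hi
  have h3 : (i : ℕ) ≠ m := fun h => h2 (Subtype.ext h)
  exact lt_of_le_of_ne h1 h3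

lemma mem_span_kept (v : ℕ → V) (a : ℕ) (t : ℕ) (ht : t < a) :
    v t ∈ Submodule.span (ZMod 2) (v '' (kept v ∩ Set.Iio a)) := by
  induction t using Nat.strong_induction_on with
  | _ t ih =>
    by_cases hk : t ∈ kept v
    · exact Submodule.subset_span ⟨t, ⟨hk, ht⟩, rfl⟩
    · have hk' : v t ∈ Submodule.span (ZMod 2) (v '' Set.Iio t) := by
        by_contra h; exact hk h
      refine (Submodule.span_le.mpr ?_) hk'
      rintro _ ⟨s, hs, rfl⟩
      exact ih s hs (lt_trans hs ht)

lemma block_count (v : ℕ → V) (n : ℕ)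
    (h : LinearIndependent (ZMod 2) (fun t : blk n => v t)) :
    ((blk n : Set ℕ) \ kept v).ncard ≤ bl n := by
  classical
  set W : Set V := v '' (kept v ∩ Set.Iio (bl (n + 1))) with hW
  have hfin : (kept v ∩ Set.Iio (bl (n + 1))).Finite :=
    (Set.finite_Iio _).subset Set.inter_subset_right
  have hWfin : W.Finite := hfin.image _
  have : Fintype W := hWfin.fintype
  have h1 : Fintype.card (blk n) ≤ Fintype.card W := by
    apply linearIndependent_le_span_aux' _ h
    rintro _ ⟨⟨t, ht⟩, rfl⟩
    rw [blk, Finset.mem_Ico] at ht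
    exact mem_span_kept v _ t ht.2
  rw [Fintype.card_coe] at h1
  have h2 : Fintype.card W ≤ (kept v ∩ Set.Iio (bl (n + 1))).ncard := by
    rw [← Nat.card_eq_fintype_card, Nat.card_coe_set_eq]
    exact Set.ncard_image_le hfin
  have h3 : (kept v ∩ Set.Iio (bl (n + 1))).ncard ≤ bl n + ((blk n : Set ℕ) ∩ kept v).ncard := by
    have hsub : kept v ∩ Set.Iio (bl (n + 1)) ⊆ Set.Iio (bl n) ∪ ((blk n : Set ℕ) ∩ kept v) := by
      rintro t ⟨ht1, ht2⟩
      by_cases hlt : t < bl n
      · exact Or.inl hlt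
      · refine Or.inr ⟨?_, ht1⟩
        rw [blk, Finset.coe_Ico]
        exact ⟨not_lt.mp hlt, ht2⟩
    calc _ ≤ (Set.Iio (bl n) ∪ ((blk n : Set ℕ) ∩ kept v)).ncard := by
            exact Set.ncard_le_ncard hsub
              ((Set.finite_Iio _).union ((Finset.finite_toSet _).subset Set.inter_subset_left))
      _ ≤ (Set.Iio (bl n)).ncard + _ := Set.ncard_union_le _ _
      _ = _ := by
          congr 1
          rw [← Nat.card_coe_set_eq]
          simp
  have h4 : ((blk n : Set ℕ) ∩ kept v).ncard + ((blk n : Set ℕ) \ kept v).ncard = (blk n).card := by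
    rw [Set.ncard_inter_add_ncard_sdiff_eq_ncard _ _ (Finset.finite_toSet _), Set.ncard_coe_finset]
  omega

end greedy

/-- The countable Boolean group. -/
abbrev D : Type := ℕ →₀ ZMod 2

/-- Linearly independent sequences in `D`. -/
abbrev Sq : Type := {f : ℕ → D // LinearIndependent (ZMod 2) f}

noncomputable instance instEncD : Encodable D := Encodable.ofCountable D

/-- Codes of the initial segments of a sequence. -/
noncomputable def code (f : ℕ → D) (n : ℕ) : ℕ := Encodable.encode ((List.range n).map f)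

/-- An almost disjoint family of sets of natural numbers, indexed by sequences. -/
def ad (f : ℕ → D) : Set ℕ := Set.range (code f)

lemma code_eq {f g : ℕ → D} {n m : ℕ} (h : code f n = code g m) :
    n = m ∧ ∀ i < n, f i = g i := by
  have h1 : (List.range n).map f = (List.range m).map g := Encodable.encode_injective h
  have h2 : n = m := by
    have := congrArg List.length h1
    simpa using this
  subst h2
  refine ⟨rfl, fun i hi => ?_⟩
  rw [List.map_inj_left] at h1
  exact h1 i (List.mem_range.mpr hi)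

lemma ad_infinite (f : ℕ → D) : (ad f).Infinite :=
  Set.infinite_range_of_injective (fun _ _ h => (code_eq h).1)

lemma ad_inter {f g : ℕ → D} (h : f ≠ g) : (ad f ∩ ad g).Finite := by
  obtain ⟨m, hm⟩ := Function.ne_iff.mp h
  apply ((Set.finite_Iic m).image (code f)).subset
  rintro _ ⟨⟨n, rfl⟩, ⟨n', h'⟩⟩
  refine ⟨n, ?_, rfl⟩
  by_contra hn
  rw [Set.mem_Iic, not_le] at hn
  exact hm ((code_eq h'.symm).2 m hn)

/-- Data for the construction of a group: `u f` is a free ultrafilter on block numbers, `q f` is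
a block ultrafilter lying over it. -/
structure Good (u q : Sq → Ultrafilter ℕ) : Prop where
  cof : ∀ f, (u f : Filter ℕ) ≤ cofinite
  adm : ∀ f, ad f.1 ∈ u f
  pre : ∀ f (S : Set ℕ), pr ⁻¹' S ∈ q f ↔ S ∈ u f
  bg : ∀ f, ∀ X ∈ big, X ∈ q f
  qcof : ∀ f, (q f : Filter ℕ) ≤ cofinite

/-- For countably many sequences one can choose members of the ultrafilters so that the union of
the restricted sequences is linearly independent. -/
lemma selection {u q : Sq → Ultrafilter ℕ} (h : Good u q) (C : Set Sq) (hC : C.Countable) :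
    ∃ X : Sq → Set ℕ, (∀ f ∈ C, X f ∈ q f) ∧
      LinearIndependent (ZMod 2)
        (fun z : {z : Sq × ℕ // z.1 ∈ C ∧ z.2 ∈ X z.1} => z.1.1.1 z.1.2) := by
  classical
  obtain ⟨e, he⟩ := Set.countable_iff_exists_injOn.mp hC
  set B : Sq → Set ℕ := fun f => {n | n ∈ ad f.1 ∧ ∀ g ∈ C, e g < e f → n ∉ ad g.1} with hB
  have hBu : ∀ f ∈ C, B f ∈ u f := by
    intro f hf
    have hfin : (⋃ g ∈ {g | g ∈ C ∧ e g < e f}, (ad f.1 ∩ ad g.1)).Finite := by
      apply Set.Finite.biUnion
      · apply Set.Finite.of_finite_image (f := e)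
        · exact (Set.finite_Iio (e f)).subset (by rintro _ ⟨g, hg, rfl⟩; exact hg.2)
        · exact he.mono (fun g hg => hg.1)
      · rintro g ⟨_, hlt⟩
        apply ad_inter
        intro heq
        rw [Subtype.ext heq] at hlt
        exact lt_irrefl _ hlt
    have h1 : (⋃ g ∈ {g | g ∈ C ∧ e g < e f}, (ad f.1 ∩ ad g.1))ᶜ ∈ u f :=
      h.cof f hfin.compl_mem_cofinite
    refine Filter.mem_of_superset (Filter.inter_mem (h.adm f) h1) ?_
    rintro n ⟨hn1, hn2⟩
    refine ⟨hn1, fun g hg hlt hn => hn2 ?_⟩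
    rw [Set.mem_iUnion₂]
    exact ⟨g, ⟨hg, hlt⟩, hn1, hn⟩
  have hBd : ∀ f ∈ C, ∀ g ∈ C, ∀ n, n ∈ B f → n ∈ B g → f = g := by
    intro f hf g hg n hnf hng
    rcases lt_trichotomy (e f) (e g) with h1 | h1 | h1
    · exact absurd hnf.1 (hng.2 f hf h1)
    · exact he hf hg h1
    · exact absurd hng.1 (hnf.2 g hg h1)
  set v : ℕ → D := fun t => if h : ∃ f ∈ C, pr t ∈ B f then h.choose.1 t else 0 with hv
  have hveq : ∀ f ∈ C, ∀ t, pr t ∈ B f → v t = f.1 t := by
    intro f hf t ht
    have hex : ∃ f ∈ C, pr t ∈ B f := ⟨f, hf, ht⟩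
    have : hex.choose = f := hBd _ hex.choose_spec.1 _ hf _ hex.choose_spec.2 ht
    simp only [hv, dif_pos hex, this]
  refine ⟨fun f => {t | pr t ∈ B f ∧ t ∈ kept v}, ?_, ?_⟩
  · intro f hf
    have h1 : pr ⁻¹' (B f) ∈ q f := (h.pre f _).mpr (hBu f hf)
    have h2 : {t | pr t ∈ B f → t ∈ kept v} ∈ q f := by
      apply h.bg
      refine ⟨1, fun n => ?_⟩
      by_cases hn : n ∈ B f
      · have h3 : LinearIndependent (ZMod 2) (fun t : blk n => v t) := by
          have h4 : LinearIndependent (ZMod 2) (fun t : blk n => f.1 t) :=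
            f.2.comp _ Subtype.val_injective
          have h5 : (fun t : blk n => v t) = (fun t : blk n => f.1 t) := by
            funext t
            apply hveq f hf
            rw [(mem_blk n t).mp t.2]
            exact hn
          rw [h5]; exact h4
        have h6 := block_count v n h3
        have h7 : ((blk n : Set ℕ) \ {t | pr t ∈ B f → t ∈ kept v}).ncard ≤
            ((blk n : Set ℕ) \ kept v).ncard := by
          apply Set.ncard_le_ncard _ (blk_finite n _)
          rintro t ⟨ht1, ht2⟩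
          exact ⟨ht1, fun ht => ht2 (fun _ => ht)⟩
        omega
      · have h7 : ((blk n : Set ℕ) \ {t | pr t ∈ B f → t ∈ kept v}) = ∅ := by
          ext t
          simp only [Set.mem_sdiff, Finset.mem_coe, Set.mem_ofPred_eq, Set.mem_empty_iff_false,
            iff_false, not_and, not_not]
          intro ht hp
          rw [(mem_blk n t).mp ht] at hp
          exact absurd hp hn
        rw [h7]; simp
    refine Filter.mem_of_superset (Filter.inter_mem h1 h2) ?_
    rintro t ⟨ht1, ht2⟩
    exact ⟨ht1, ht2 ht1⟩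
  · have h1 := (kept_li v).comp
      (fun z : {z : Sq × ℕ // z.1 ∈ C ∧ z.2 ∈ {t | pr t ∈ B z.1 ∧ t ∈ kept v}} =>
        (⟨z.1.2, z.2.2.2⟩ : kept v)) (by
          intro z w hzw
          have hzw' : z.1.2 = w.1.2 := congrArg Subtype.val hzw
          apply Subtype.ext
          apply Prod.ext
          · apply hBd _ z.2.1 _ w.2.1 _ z.2.2.1
            rw [hzw']; exact w.2.2.1
          · exact hzw')
    have h2 : (fun z : {z : Sq × ℕ // z.1 ∈ C ∧ z.2 ∈ {t | pr t ∈ B z.1 ∧ t ∈ kept v}} =>
        z.1.1.1 z.1.2) = (fun t : kept v => v t) ∘ (fun z => (⟨z.1.2, z.2.2.2⟩ : kept v)) := by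
      funext z
      exact (hveq _ z.2.1 _ z.2.2.1).symm
    rw [h2]
    exact h1

end Pool.Agent.H110.PC
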