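import Mathlib
import Pool.Agent.H110.PC.Greedy

/-! The groups generated by `D` and by limits of block ultrafilters. -/

namespace Pool.Agent.H110.PC

open Filter Set Topology

/-- The ambient compact group. -/
abbrev E : Type := (D →ₗ[ZMod 2] ZMod 2) → ZMod 2

/-- Evaluation. -/
noncomputable def ev : D →ₗ[ZMod 2] E where
  toFun d := fun Φ => Φ d
  map_add' x y := by funext Φ; simp
  map_smul' c x := by funext Φ; simp

lemma ev_apply (d : D) (Φ : D →ₗ[ZMod 2] ZMod 2) : ev d Φ = Φ d := rfl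

lemma zmod2_cases (c : ZMod 2) : c = 0 ∨ c = 1 := by
  revert c; decide

open Classical in
/-- Limit of a sequence along an ultrafilter. -/
noncomputable def lm (q : Ultrafilter ℕ) (f : ℕ → D) : E :=
  fun Φ => if ∀ᶠ t in (q : Filter ℕ), Φ (f t) = 1 then 1 else 0

lemma lm_spec (q : Ultrafilter ℕ) (f : ℕ → D) (Φ : D →ₗ[ZMod 2] ZMod 2) :
    ∀ᶠ t in (q : Filter ℕ), Φ (f t) = lm q f Φ := by
  unfold lm
  by_cases h : ∀ᶠ t in (q : Filter ℕ), Φ (f t) = 1
  · rw [if_pos h]; exact h
  · rw [if_neg h]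
    rw [Ultrafilter.eventually_not.symm] at h
    filter_upwards [h] with t ht
    rcases zmod2_cases (Φ (f t)) with h0 | h0
    · exact h0
    · exact absurd h0 ht

lemma lm_eq (q : Ultrafilter ℕ) (f : ℕ → D) (Φ : D →ₗ[ZMod 2] ZMod 2) (c : ZMod 2)
    (h : ∀ᶠ t in (q : Filter ℕ), Φ (f t) = c) : lm q f Φ = c := by
  obtain ⟨t, h1, h2⟩ := (h.and (lm_spec q f Φ)).exists
  rw [← h1, ← h2]

/-- Representation map of the group. -/
noncomputable def rep (q : Sq → Ultrafilter ℕ) : (D × (Sq →₀ ZMod 2)) →ₗ[ZMod 2] E :=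
  LinearMap.coprod ev (Finsupp.linearCombination (ZMod 2) (fun f : Sq => lm (q f) f.1))

lemma rep_apply (q : Sq → Ultrafilter ℕ) (e : D) (γ : Sq →₀ ZMod 2)
    (Φ : D →ₗ[ZMod 2] ZMod 2) :
    rep q (e, γ) Φ = Φ e + ∑ f ∈ γ.support, γ f * lm (q f) f.1 Φ := by
  unfold rep
  rw [LinearMap.coprod_apply, Pi.add_apply, ev_apply, Finsupp.linearCombination_apply,
    Finsupp.sum, Finset.sum_apply]
  rfl

/-- The group attached to a family of ultrafilters. -/
noncomputable def Gr (q : Sq → Ultrafilter ℕ) : AddSubgroup E :=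
  (LinearMap.range (rep q)).toAddSubgroup

lemma mem_Gr (q : Sq → Ultrafilter ℕ) (x : E) : x ∈ Gr q ↔ ∃ e γ, rep q (e, γ) = x := by
  unfold Gr
  rw [Submodule.mem_toAddSubgroup, LinearMap.mem_range]
  simp

lemma rep_zero_right (q : Sq → Ultrafilter ℕ) (e : D) : rep q (e, 0) = ev e := by
  unfold rep
  rw [LinearMap.coprod_apply, map_zero, add_zero]

lemma rep_single (q : Sq → Ultrafilter ℕ) (f : Sq) :
    rep q (0, Finsupp.single f 1) = lm (q f) f.1 := by
  unfold rep
  rw [LinearMap.coprod_apply, map_zero, zero_add, Finsupp.linearCombination_single, one_smul]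

lemma ev_mem (q : Sq → Ultrafilter ℕ) (d : D) : ev d ∈ Gr q :=
  (mem_Gr q _).mpr ⟨d, 0, rep_zero_right q d⟩

lemma lm_mem (q : Sq → Ultrafilter ℕ) (f : Sq) : lm (q f) f.1 ∈ Gr q :=
  (mem_Gr q _).mpr ⟨0, Finsupp.single f 1, rep_single q f⟩

lemma tendsto_lm (q : Ultrafilter ℕ) (f : ℕ → D) :
    Tendsto (fun t => ev (f t)) (q : Filter ℕ) (𝓝 (lm q f)) := by
  rw [tendsto_pi_nhds]
  intro Φ
  apply tendsto_const_nhds.congr'
  filter_upwards [lm_spec q f Φ] with t ht
  rw [ev_apply, ht]

lemma rep_mem_closure (q : Sq → Ultrafilter ℕ) (x : D × (Sq →₀ ZMod 2)) :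
    rep q x ∈ closure (Set.range ev) := by
  have h0 : ∀ y : E, y ∈ closure (Set.range ev) ↔
      y ∈ (ev.toAddMonoidHom.range).topologicalClosure := fun y => Iff.rfl
  obtain ⟨e, γ⟩ := x
  rw [h0]
  unfold rep
  rw [LinearMap.coprod_apply]
  apply AddSubgroup.add_mem
  · exact subset_closure ⟨e, rfl⟩
  · rw [Finsupp.linearCombination_apply, Finsupp.sum]
    apply AddSubgroup.sum_mem
    intro f _
    rcases zmod2_cases (γ f) with h | h
    · rw [h, zero_smul]; exact AddSubgroup.zero_mem _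
    · rw [h, one_smul]
      exact mem_closure_of_tendsto (tendsto_lm (q f) f.1)
        (Eventually.of_forall (fun t => ⟨f.1 t, rfl⟩))

lemma ev_injective : Function.Injective ev := by
  intro x y h
  ext i
  exact congrFun h (Finsupp.lapply i)

/-- An infinite set of vectors contains an independent sequence. -/
lemma exists_li_seq {ι : Type*} [Infinite ι] (w : ι → D) (hw : Function.Injective w) :
    ∃ φ : ℕ → ι, Function.Injective φ ∧ LinearIndependent (ZMod 2) (w ∘ φ) := by
  obtain ⟨b, hb1, hb2, hb3⟩ := exists_linearIndependent (ZMod 2) (Set.range w)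
  have hinf : b.Infinite := by
    intro hfin
    have h1 : (Set.range w) ⊆ (Submodule.span (ZMod 2) b : Set D) := by
      rw [hb2]; exact Submodule.subset_span
    have hfg : (Submodule.span (ZMod 2) b).FG := Submodule.fg_span hfin
    have h2 : Module.Finite (ZMod 2) (Submodule.span (ZMod 2) b) :=
      Module.Finite.iff_fg.mpr hfg
    have h3 : Finite (Submodule.span (ZMod 2) b) := Module.finite_of_finite (ZMod 2)
    have h4 : (Submodule.span (ZMod 2) b : Set D).Finite := Set.toFinite _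
    exact Set.infinite_range_of_injective hw (h4.subset h1)
  have := hinf.to_subtype
  let em := hinf.natEmbedding
  choose φ hφ using fun n => hb1 (em n).2
  refine ⟨φ, ?_, ?_⟩
  · intro n m h
    have : ((em n : b) : D) = (em m : b) := by rw [← hφ n, ← hφ m, h]
    exact em.injective (Subtype.ext this)
  · have h5 : w ∘ φ = (fun x : b => (x : D)) ∘ em := by
      funext n
      exact hφ n
    rw [h5]
    exact hb3.comp _ em.injective

/-- Left inverse of an independent family. -/
lemma exists_rho {ι : Type*} (w : ι → D) (hw : LinearIndependent (ZMod 2) w) :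
    ∃ ρ : D →ₗ[ZMod 2] (ι →₀ ZMod 2), ∀ z, ρ (w z) = Finsupp.single z 1 := by
  obtain ⟨ρ, hρ⟩ := LinearMap.exists_leftInverse_of_injective
    (Finsupp.linearCombination (ZMod 2) w) (LinearMap.ker_eq_bot.mpr hw)
  refine ⟨ρ, fun z => ?_⟩
  have := congrArg (fun F => F (Finsupp.single z 1)) hρ
  simpa using this

end Pool.Agent.H110.PC
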