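import Mathlib
import Pool.Agent.H110.PC.Grp

/-! Sequences with infinitely many new generators have no limit in the group. -/

namespace Pool.Agent.H110.PC

open Filter Set Topology

/-- Course-of-values recursion. -/
lemma exists_rec {α : Type*} [Zero α] (F : ℕ → (ℕ → α) → α) :
    ∃ C : ℕ → α, ∀ k, C k = F k (fun j => if j < k then C j else 0) := by
  classical
  let C : ℕ → α := WellFounded.fix (Nat.lt_wfRel.wf)
    (fun k ih => F k (fun j => if h : j < k then ih j h else 0))
  refine ⟨C, fun k => ?_⟩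
  have := WellFounded.fix_eq (Nat.lt_wfRel.wf)
    (fun k (ih : ∀ y, y < k → α) => F k (fun j => if h : j < k then ih j h else 0)) k
  exact this

lemma solve (A : ℕ → (ℕ → ZMod 2) → ZMod 2) (P : ℕ → Prop)
    (hA : ∀ k, P k → ∀ C C' : ℕ → ZMod 2, (∀ j < k, C j = C' j) →
      A k C + C k = A k C' + C' k) :
    ∃ C, ∀ k, P k → A k C = 1 := by
  obtain ⟨C, hC⟩ := exists_rec (fun k C => 1 + A k C)
  refine ⟨C, fun k hk => ?_⟩
  have h1 := hA k hk C (fun j => if j < k then C j else 0) (fun j hj => by simp [hj])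
  simp only [lt_irrefl, if_false, add_zero] at h1
  rw [hC k] at h1
  have h2 : ∀ a b : ZMod 2, a + (1 + b) = b → a = 1 := by decide
  exact h2 _ _ h1

lemma lc_apply {ι : Type*} (θ : ι → ZMod 2) (x : ι →₀ ZMod 2) :
    Finsupp.linearCombination (ZMod 2) θ x = ∑ z ∈ x.support, x z * θ z := by
  rw [Finsupp.linearCombination_apply, Finsupp.sum]
  rfl

theorem caseA {u q : Sq → Ultrafilter ℕ} (h : Good u q) (d : ℕ → D) (c : ℕ → (Sq →₀ ZMod 2))
    (piv : ℕ → Sq) (h1 : ∀ k, piv k ∈ (c k).support)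
    (h2 : ∀ j k, j < k → piv k ∉ (c j).support) (e : D) (γ : Sq →₀ ZMod 2)
    (r : Ultrafilter ℕ) (hr : (r : Filter ℕ) ≤ cofinite)
    (hlim : ∀ Φ : D →ₗ[ZMod 2] ZMod 2, ∀ᶠ k in (r : Filter ℕ),
      rep q (d k, c k) Φ = rep q (e, γ) Φ) : False := by
  classical
  have hpinj : Function.Injective piv := by
    intro j k hjk
    rcases lt_trichotomy j k with hlt | heq | hlt
    · exact absurd (hjk ▸ h1 j) (h2 j k hlt)
    · exact heq
    · exact absurd (hjk.symm ▸ h1 k) (h2 k j hlt)
  set ix : Sq → ℕ := Function.invFun piv with hix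
  have hixp : ∀ k, ix (piv k) = k := Function.leftInverse_invFun hpinj
  set CC : Set Sq := (γ.support : Set Sq) ∪ ⋃ k, ((c k).support : Set Sq) with hCC
  have hCcount : CC.Countable :=
    (Finset.countable_toSet _).union (Set.countable_iUnion fun k => Finset.countable_toSet _)
  obtain ⟨X, hX, hLI⟩ := selection h CC hCcount
  set ι := {z : Sq × ℕ // z.1 ∈ CC ∧ z.2 ∈ X z.1} with hι
  obtain ⟨ρ, hρ⟩ := exists_rho _ hLI
  -- exceptional finite sets
  set Ex : ℕ → Finset ι := fun k => (ρ e).support ∪ (Finset.range (k + 1)).biUnion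
    (fun j => (ρ (d j)).support) with hEx
  set cond : ι → Prop := fun z => (∃ k, piv k = z.1.1) ∧ z.1.1 ∉ γ.support ∧
    z ∉ Ex (ix z.1.1) with hcond
  set θ : (ℕ → ZMod 2) → ι → ZMod 2 := fun C z => if cond z then C (ix z.1.1) else 0 with hθ
  set Φ : (ℕ → ZMod 2) → (D →ₗ[ZMod 2] ZMod 2) := fun C =>
    (Finsupp.linearCombination (ZMod 2) (θ C)).comp ρ with hΦ
  have F1 : ∀ C (z : ι), Φ C (z.1.1.1 z.1.2) = θ C z := by
    intro C z
    simp only [hΦ, LinearMap.comp_apply]
    rw [hρ z, Finsupp.linearCombination_single, one_smul]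
  have FΦ : ∀ C x, Φ C x = ∑ z ∈ (ρ x).support, (ρ x) z * θ C z := by
    intro C x
    simp only [hΦ, LinearMap.comp_apply]
    exact lc_apply _ _
  have F2 : ∀ C, Φ C e = 0 := by
    intro C
    rw [FΦ]
    apply Finset.sum_eq_zero
    intro z hz
    have : ¬ cond z := fun hc => hc.2.2 (Finset.mem_union_left _ hz)
    simp only [hθ, if_neg this, mul_zero]
  have F3 : ∀ C, ∀ f ∈ CC, lm (q f) f.1 (Φ C) =
      if (∃ k, piv k = f) ∧ f ∉ γ.support then C (ix f) else 0 := by
    intro C f hf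
    apply lm_eq
    have hfin : (((Ex (ix f)).image (fun z : ι => z.1.2) : Finset ℕ) : Set ℕ)ᶜ ∈ q f :=
      h.qcof f (Finset.finite_toSet _).compl_mem_cofinite
    filter_upwards [hX f hf, hfin] with t ht1 ht2
    have hz := F1 C ⟨(f, t), hf, ht1⟩
    refine hz.trans ?_
    have hnot : (⟨(f, t), hf, ht1⟩ : ι) ∉ Ex (ix f) := by
      intro hmem
      apply ht2
      rw [Finset.mem_coe, Finset.mem_image]
      exact ⟨_, hmem, rfl⟩
    simp only [hθ, hcond]
    by_cases hc : (∃ k, piv k = f) ∧ f ∉ γ.support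
    · rw [if_pos hc, if_pos ⟨hc.1, hc.2, hnot⟩]
    · rw [if_neg hc, if_neg (fun h' => hc ⟨h'.1, h'.2.1⟩)]
  have F4 : ∀ C, rep q (e, γ) (Φ C) = 0 := by
    intro C
    rw [rep_apply, F2, zero_add]
    apply Finset.sum_eq_zero
    intro f hf
    rw [F3 C f (Or.inl hf), if_neg (fun h' => h'.2 hf), mul_zero]
  have hone : ∀ k, c k (piv k) = 1 := by
    intro k
    rcases zmod2_cases (c k (piv k)) with h0 | h0
    · exact absurd h0 (Finsupp.mem_support_iff.mp (h1 k))
    · exact h0
  have F5 : ∀ k, piv k ∉ γ.support → ∀ C C' : ℕ → ZMod 2, (∀ j < k, C j = C' j) →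
      rep q (d k, c k) (Φ C) + C k = rep q (d k, c k) (Φ C') + C' k := by
    intro k hk C C' hCC'
    have hexp : ∀ C : ℕ → ZMod 2, rep q (d k, c k) (Φ C) + C k =
        Φ C (d k) + ∑ f ∈ (c k).support.erase (piv k), c k f * lm (q f) f.1 (Φ C) := by
      intro C
      rw [rep_apply, ← Finset.add_sum_erase _ _ (h1 k), hone k, one_mul,
        F3 C (piv k) (Or.inr (Set.mem_iUnion.mpr ⟨k, h1 k⟩)), if_pos ⟨⟨k, rfl⟩, hk⟩, hixp k]
      have h3 : ∀ a b s : ZMod 2, a + (b + s) + b = a + s := by decide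
      exact h3 _ _ _
    rw [hexp, hexp]
    congr 1
    · rw [FΦ, FΦ]
      apply Finset.sum_congr rfl
      intro z hz
      congr 1
      simp only [hθ]
      by_cases hc : cond z
      · rw [if_pos hc, if_pos hc]
        apply hCC'
        by_contra hlt
        apply hc.2.2
        apply Finset.mem_union_right
        rw [Finset.mem_biUnion]
        exact ⟨k, Finset.mem_range.mpr (by omega), hz⟩
      · rw [if_neg hc, if_neg hc]
    · apply Finset.sum_congr rfl
      intro f hf
      congr 1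
      have hfs : f ∈ (c k).support := Finset.mem_of_mem_erase hf
      have hfC : f ∈ CC := Or.inr (Set.mem_iUnion.mpr ⟨k, hfs⟩)
      rw [F3 C f hfC, F3 C' f hfC]
      by_cases hc : (∃ k, piv k = f) ∧ f ∉ γ.support
      · rw [if_pos hc, if_pos hc]
        obtain ⟨⟨j, hj⟩, _⟩ := hc
        rw [← hj, hixp]
        apply hCC'
        rcases lt_trichotomy j k with hlt | heq | hlt
        · exact hlt
        · exact absurd (by rw [← hj, heq] : f = piv k) (Finset.ne_of_mem_erase hf)
        · exact absurd (hj ▸ hfs) (h2 k j hlt)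
      · rw [if_neg hc, if_neg hc]
  obtain ⟨C, hC⟩ := solve (fun k C => rep q (d k, c k) (Φ C)) (fun k => piv k ∉ γ.support) F5
  have hev : ∀ᶠ k in (r : Filter ℕ), piv k ∉ γ.support := by
    apply hr
    rw [mem_cofinite]
    have : ({k | piv k ∉ γ.support}ᶜ : Set ℕ) = piv ⁻¹' (γ.support : Set Sq) := by
      ext k; simp
    rw [this]
    exact (Finset.finite_toSet _).preimage hpinj.injOn
  obtain ⟨k, hk1, hk2⟩ := (hev.and (hlim (Φ C))).exists
  rw [F4 C] at hk2
  have := hC k hk1
  rw [hk2] at this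
  exact absurd this (by decide)

end Pool.Agent.H110.PC
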