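import Mathlib
import Pool.Agent.H110.PC.CaseA

/-! Limits of independent sequences of `D` along an ultrafilter. -/

namespace Pool.Agent.H110.PC

open Filter Set Topology

open Classical in
/-- The functional counting indices whose block number lies in `S`. -/
noncomputable def Psi (S : Set ℕ) : D →ₗ[ZMod 2] ZMod 2 :=
  Finsupp.linearCombination (ZMod 2) (fun t : ℕ => if pr t ∈ S then (1 : ZMod 2) else 0)

theorem caseC0 (d : ℕ → D) (hd : LinearIndependent (ZMod 2) d) (e : D)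
    (r : Ultrafilter ℕ) (hr : (r : Filter ℕ) ≤ cofinite)
    (hlim : ∀ Φ : D →ₗ[ZMod 2] ZMod 2, ∀ᶠ k in (r : Filter ℕ), Φ (d k) = Φ e) : False := by
  classical
  obtain ⟨ρ, hρ⟩ := exists_rho d hd
  set θ : ℕ → ZMod 2 := fun k => if k ∈ (ρ e).support then 0 else 1 with hθ
  set Φ : D →ₗ[ZMod 2] ZMod 2 := (Finsupp.linearCombination (ZMod 2) θ).comp ρ with hΦ
  have h1 : ∀ k, Φ (d k) = θ k := by
    intro k
    simp only [hΦ, LinearMap.comp_apply]
    rw [hρ k, Finsupp.linearCombination_single, one_smul]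
  have h2 : Φ e = 0 := by
    simp only [hΦ, LinearMap.comp_apply]
    rw [lc_apply]
    apply Finset.sum_eq_zero
    intro k hk
    simp only [hθ, if_pos hk, mul_zero]
  have h3 : ∀ᶠ k in (r : Filter ℕ), k ∉ (ρ e).support := by
    apply hr
    rw [mem_cofinite]
    apply (Finset.finite_toSet (ρ e).support).subset
    intro k hk
    simpa using hk
  obtain ⟨k, hk1, hk2⟩ := (h3.and (hlim Φ)).exists
  rw [h1, h2] at hk2
  simp only [hθ, if_neg hk1] at hk2
  exact absurd hk2 (by decide)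

theorem caseC {u q : Sq → Ultrafilter ℕ} (h : Good u q) (d : ℕ → D) (e : D) (γ : Sq →₀ ZMod 2)
    (f0 : Sq) (hf0 : f0 ∈ γ.support) (r : Ultrafilter ℕ)
    (hlim : ∀ Φ : D →ₗ[ZMod 2] ZMod 2, ∀ᶠ k in (r : Filter ℕ), Φ (d k) = rep q (e, γ) Φ) :
    ∃ T : ℕ → D, ∀ S : Set ℕ, S ∈ u f0 ↔ ∀ᶠ k in (r : Filter ℕ), Psi S (T k) = 1 := by
  classical
  obtain ⟨X, hX, hLI⟩ := selection h (γ.support : Set Sq) (Finset.countable_toSet _)
  set ι := {z : Sq × ℕ // z.1 ∈ (γ.support : Set Sq) ∧ z.2 ∈ X z.1} with hι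
  obtain ⟨ρ, hρ⟩ := exists_rho _ hLI
  set κ : (ι →₀ ZMod 2) →ₗ[ZMod 2] D := Finsupp.linearCombination (ZMod 2)
    (fun z : ι => if z.1.1 = f0 ∧ z ∉ (ρ e).support then Finsupp.single z.1.2 1 else 0) with hκ
  refine ⟨fun k => κ (ρ (d k)), fun S => ?_⟩
  set Φ : D →ₗ[ZMod 2] ZMod 2 := (Psi S).comp (κ.comp ρ) with hΦ
  have F1 : ∀ z : ι, Φ (z.1.1.1 z.1.2) =
      if z.1.1 = f0 ∧ z ∉ (ρ e).support then (if pr z.1.2 ∈ S then 1 else 0) else 0 := by
    intro z
    simp only [hΦ, LinearMap.comp_apply]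
    rw [hρ z, hκ, Finsupp.linearCombination_single, one_smul]
    by_cases hc : z.1.1 = f0 ∧ z ∉ (ρ e).support
    · rw [if_pos hc, if_pos hc]
      unfold Psi
      rw [Finsupp.linearCombination_single, one_smul]
    · rw [if_neg hc, if_neg hc, map_zero]
  have F2 : Φ e = 0 := by
    simp only [hΦ, LinearMap.comp_apply]
    have : κ (ρ e) = 0 := by
      rw [hκ, Finsupp.linearCombination_apply, Finsupp.sum]
      apply Finset.sum_eq_zero
      intro z hz
      rw [if_neg (fun hc => hc.2 hz), smul_zero]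
    rw [this, map_zero]
  have F3 : ∀ f ∈ γ.support, f ≠ f0 → lm (q f) f.1 Φ = 0 := by
    intro f hf hne
    apply lm_eq
    filter_upwards [hX f hf] with t ht
    have := F1 ⟨(f, t), hf, ht⟩
    refine this.trans ?_
    rw [if_neg (fun hc => hne hc.1)]
  have F4 : lm (q f0) f0.1 Φ = if S ∈ u f0 then 1 else 0 := by
    apply lm_eq
    have hfin : (((ρ e).support.image (fun z : ι => z.1.2) : Finset ℕ) : Set ℕ)ᶜ ∈ q f0 :=
      h.qcof f0 (Finset.finite_toSet _).compl_mem_cofinite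
    have hval : ∀ t, t ∈ X f0 → t ∈ (((ρ e).support.image (fun z : ι => z.1.2) : Finset ℕ) : Set ℕ)ᶜ →
        Φ (f0.1 t) = if pr t ∈ S then 1 else 0 := by
      intro t ht1 ht2
      have := F1 ⟨(f0, t), hf0, ht1⟩
      refine this.trans ?_
      rw [if_pos]
      refine ⟨rfl, fun hmem => ht2 ?_⟩
      rw [Finset.mem_coe, Finset.mem_image]
      exact ⟨_, hmem, rfl⟩
    by_cases hS : S ∈ u f0
    · rw [if_pos hS]
      filter_upwards [hX f0 hf0, hfin, (h.pre f0 S).mpr hS] with t ht1 ht2 ht3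
      have ht3' : pr t ∈ S := ht3
      rw [hval t ht1 ht2, if_pos ht3']
    · rw [if_neg hS]
      have hS' : Sᶜ ∈ u f0 := Ultrafilter.compl_mem_iff_notMem.mpr hS
      filter_upwards [hX f0 hf0, hfin, (h.pre f0 Sᶜ).mpr hS'] with t ht1 ht2 ht3
      have ht3' : pr t ∉ S := ht3
      rw [hval t ht1 ht2, if_neg ht3']
  have F5 : rep q (e, γ) Φ = if S ∈ u f0 then 1 else 0 := by
    rw [rep_apply, F2, zero_add, ← Finset.add_sum_erase _ _ hf0, F4]
    have hone : γ f0 = 1 := by
      rcases zmod2_cases (γ f0) with h0 | h0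
      · exact absurd h0 (Finsupp.mem_support_iff.mp hf0)
      · exact h0
    rw [hone, one_mul, Finset.sum_eq_zero, add_zero]
    intro f hf
    rw [F3 f (Finset.mem_of_mem_erase hf) (Finset.ne_of_mem_erase hf), mul_zero]
  have hl := hlim Φ
  rw [F5] at hl
  constructor
  · intro hS
    rw [if_pos hS] at hl
    exact hl
  · intro hev
    by_contra hS
    rw [if_neg hS] at hl
    obtain ⟨k, hk1, hk2⟩ := (hl.and hev).exists
    have : Φ (d k) = Psi S (κ (ρ (d k))) := rfl
    rw [← this, hk1] at hk2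
    exact absurd hk2 (by decide)

open Classical in
/-- A functional on an independent sequence with prescribed values. -/
noncomputable def pres (d : Sq) (T : ℕ → D) (S : Set ℕ) : D →ₗ[ZMod 2] ZMod 2 :=
  (Finsupp.linearCombination (ZMod 2) (fun k => Psi S (T k))).comp (exists_rho d.1 d.2).choose

lemma pres_apply (d : Sq) (T : ℕ → D) (S : Set ℕ) (k : ℕ) : pres d T S (d.1 k) = Psi S (T k) := by
  unfold pres
  rw [LinearMap.comp_apply, (exists_rho d.1 d.2).choose_spec k,
    Finsupp.linearCombination_single, one_smul]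

end Pool.Agent.H110.PC
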