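import Mathlib
import Pool.Agent.H110.PC.CaseC

/-! Ultrafilters avoiding continuum many prescribed families of sets. -/

namespace Pool.Agent.H110.PC

open Filter Set Topology Cardinal

/-- Index type for the independent family. -/
abbrev Q : Type := Finset ℕ × Finset (Finset ℕ)

open Classical in
/-- The independent family on `Q`. -/
def ind (φ : Set ℕ) : Set Q := {x | x.1.filter (fun n => n ∈ φ) ∈ x.2}

lemma ind_indep (P : Finset (Set ℕ)) (b : Set ℕ → Prop) (N : Finset Q) :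
    ∃ x : Q, x ∉ N ∧ ∀ φ ∈ P, (x ∈ ind φ ↔ b φ) := by
  classical
  have hδ : ∀ p : Set ℕ × Set ℕ, ∃ n : ℕ, p.1 ≠ p.2 → ¬ (n ∈ p.1 ↔ n ∈ p.2) := by
    intro p
    by_cases h : p.1 = p.2
    · exact ⟨0, fun h' => absurd h h'⟩
    · by_contra hcon
      push Not at hcon
      apply h
      ext n
      exact (hcon n).2
  choose δ hδ using hδ
  obtain ⟨M, hM⟩ := Infinite.exists_notMem_finset (N.biUnion (fun x => x.1))
  set F : Finset ℕ := insert M ((P ×ˢ P).image δ) with hF
  set SS : Finset (Finset ℕ) := (P.filter b).image (fun φ => F.filter (fun n => n ∈ φ)) with hSS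
  refine ⟨(F, SS), ?_, ?_⟩
  · intro hmem
    apply hM
    rw [Finset.mem_biUnion]
    exact ⟨_, hmem, Finset.mem_insert_self _ _⟩
  · intro φ hφ
    show F.filter (fun n => n ∈ φ) ∈ SS ↔ b φ
    rw [hSS, Finset.mem_image]
    constructor
    · rintro ⟨ψ, hψ, heq⟩
      rw [Finset.mem_filter] at hψ
      have : ψ = φ := by
        by_contra hne
        have h1 := hδ (ψ, φ) hne
        have h2 : δ (ψ, φ) ∈ F := by
          apply Finset.mem_insert_of_mem
          rw [Finset.mem_image]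
          exact ⟨(ψ, φ), Finset.mk_mem_product hψ.1 hφ, rfl⟩
        apply h1
        have h3 : δ (ψ, φ) ∈ F.filter (fun n => n ∈ ψ) ↔ δ (ψ, φ) ∈ F.filter (fun n => n ∈ φ) := by
          rw [heq]
        simpa [Finset.mem_filter, h2] using h3
      rw [← this]; exact hψ.2
    · intro hb
      exact ⟨φ, Finset.mem_filter.mpr ⟨hφ, hb⟩, rfl⟩

/-- Diagonalisation: a free ultrafilter containing `A` which differs from continuum many given
families of sets. -/
theorem diag {Par : Type} (hs : ∃ s : Set ℕ → Par, Function.Surjective s)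
    (Z : Par → Set (Set ℕ)) (A : Set ℕ) (hA : A.Infinite) :
    ∃ u : Ultrafilter ℕ, (u : Filter ℕ) ≤ cofinite ∧ A ∈ u ∧
      ∀ p, ¬ ∀ S : Set ℕ, (S ∈ u ↔ S ∈ Z p) := by
  classical
  obtain ⟨s, hs⟩ := hs
  have := hA.to_subtype
  let em : ℕ ↪ A := Set.Infinite.natEmbedding A hA
  let j : Q → ℕ := fun x => (em (Encodable.encode x) : A)
  have hj : Function.Injective j := by
    intro x y hxy
    exact Encodable.encode_injective (em.injective (Subtype.ext hxy))
  have hjA : ∀ x, j x ∈ A := fun x => (em (Encodable.encode x)).2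
  let σ : Set ℕ ⊕ ℕ → Set ℕ := fun i => match i with
    | Sum.inl φ => if j '' (ind φ) ∈ Z (s φ) then A \ (j '' (ind φ)) else j '' (ind φ)
    | Sum.inr x => {x}ᶜ
  have hfip : ∀ T : Finset (Set ℕ), (T : Set (Set ℕ)) ⊆ Set.range σ →
      (⋂₀ (T : Set (Set ℕ))).Nonempty := by
    intro T hT
    have hT' : ∀ t : Set ℕ, t ∈ T → ∃ i, σ i = t := fun t ht => hT ht
    choose! w hw using hT'
    let P : Finset (Set ℕ) := (T.image w).biUnion (fun i => match i with
      | Sum.inl φ => {φ}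
      | Sum.inr _ => ∅)
    let Nn : Finset ℕ := (T.image w).biUnion (fun i => match i with
      | Sum.inl _ => ∅
      | Sum.inr x => {x})
    obtain ⟨x, hx1, hx2⟩ := ind_indep P (fun φ => ¬ (j '' (ind φ) ∈ Z (s φ)))
      (Nn.preimage j hj.injOn)
    refine ⟨j x, ?_⟩
    intro t ht
    have ht' : t ∈ T := ht
    have hwt := hw t ht'
    rcases hwi : w t with φ | y
    · rw [hwi] at hwt
      have hφ : φ ∈ P := by
        rw [Finset.mem_biUnion]
        exact ⟨w t, Finset.mem_image_of_mem _ ht', by rw [hwi]; simp⟩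
      have h1 := hx2 φ hφ
      rw [← hwt]
      show j x ∈ if j '' (ind φ) ∈ Z (s φ) then A \ (j '' (ind φ)) else j '' (ind φ)
      by_cases hz : j '' (ind φ) ∈ Z (s φ)
      · rw [if_pos hz]
        refine ⟨hjA x, ?_⟩
        rintro ⟨y, hy, hyx⟩
        rw [hj hyx] at hy
        exact (h1.mp hy) hz
      · rw [if_neg hz]
        exact ⟨x, h1.mpr hz, rfl⟩
    · rw [hwi] at hwt
      have hy : y ∈ Nn := by
        rw [Finset.mem_biUnion]
        exact ⟨w t, Finset.mem_image_of_mem _ ht', by rw [hwi]; simp⟩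
      rw [← hwt]
      show j x ∈ ({y}ᶜ : Set ℕ)
      intro hxy
      apply hx1
      rw [Finset.mem_preimage]
      rw [Set.mem_singleton_iff.mp hxy]
      exact hy
  obtain ⟨u, hu⟩ := Ultrafilter.exists_ultrafilter_of_finite_inter_nonempty (Set.range σ) hfip
  have hσ : ∀ i, σ i ∈ u := fun i => hu ⟨i, rfl⟩
  refine ⟨u, ?_, ?_, ?_⟩
  · rw [le_cofinite_iff_compl_singleton_mem]
    intro x
    exact hσ (Sum.inr x)
  · refine Filter.mem_of_superset (hσ (Sum.inl ∅)) ?_
    show (if j '' (ind ∅) ∈ Z (s ∅) then A \ (j '' (ind ∅)) else j '' (ind ∅)) ⊆ A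
    split_ifs
    · exact Set.sdiff_subset
    · rintro _ ⟨x, _, rfl⟩; exact hjA x
  · intro p hp
    obtain ⟨φ, hφ⟩ := hs p
    have h1 := hσ (Sum.inl φ)
    have h2 : (if j '' (ind φ) ∈ Z (s φ) then A \ (j '' (ind φ)) else j '' (ind φ)) ∈ u := h1
    by_cases hz : j '' (ind φ) ∈ Z (s φ)
    · rw [if_pos hz] at h2
      rw [hφ] at hz
      have h3 := (hp _).mpr hz
      have h4 := Filter.inter_mem h2 h3
      obtain ⟨x, hx1, hx2⟩ := u.nonempty_of_mem h4
      exact hx1.2 hx2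
    · rw [if_neg hz] at h2
      rw [hφ] at hz
      exact hz ((hp _).mp h2)

/-- Parameters of the bad ultrafilters. -/
abbrev Par : Type := Sq × (D × (Sq →₀ ZMod 2)) × (ℕ → D)

lemma mk_seqD : #(ℕ → D) ≤ 𝔠 := by
  have h : #D ≤ ℵ₀ := Cardinal.mk_le_aleph0
  calc #(ℕ → D) = #D ^ #ℕ := by simp
    _ ≤ ℵ₀ ^ ℵ₀ := by
      rw [Cardinal.mk_nat]
      exact Cardinal.power_le_power_right h
    _ = 𝔠 := Cardinal.aleph0_power_aleph0

lemma exists_surj_par : ∃ s : Set ℕ → Par, Function.Surjective s := by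
  have h1 : #Sq ≤ 𝔠 := (Cardinal.mk_subtype_le _).trans mk_seqD
  have h2 : #(Sq →₀ ZMod 2) ≤ 𝔠 := by
    have h3 : #(Sq →₀ ZMod 2) ≤ #((ℕ → D) →₀ ZMod 2) :=
      Cardinal.mk_le_of_injective (Finsupp.mapDomain_injective
        (f := (Subtype.val : Sq → (ℕ → D))) Subtype.val_injective)
    have h4 : #((ℕ → D) →₀ ZMod 2) = max #(ℕ → D) #(ZMod 2) := Cardinal.mk_finsupp_of_infinite _ _
    rw [h4] at h3
    refine h3.trans (max_le mk_seqD ?_)
    exact (Cardinal.mk_le_aleph0).trans Cardinal.aleph0_le_continuum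
  have h5 : #D ≤ 𝔠 := (Cardinal.mk_le_aleph0).trans Cardinal.aleph0_le_continuum
  have hP : #Par ≤ #(Set ℕ) := by
    rw [Cardinal.mk_set_nat]
    have : #Par = #Sq * ((#D * #(Sq →₀ ZMod 2)) * #(ℕ → D)) := by
      simp only [Par, Cardinal.mk_prod, Cardinal.lift_id]
    rw [this]
    calc _ ≤ 𝔠 * ((𝔠 * 𝔠) * 𝔠) := mul_le_mul' h1 (mul_le_mul' (mul_le_mul' h5 h2) mk_seqD)
      _ = 𝔠 := by simp
  obtain ⟨g⟩ := (Cardinal.le_def _ _).mp hP
  have hne : Nonempty Par := by
    refine ⟨(⟨fun n => Finsupp.single n 1, ?_⟩, (0, 0), fun _ => 0)⟩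
    exact Finsupp.linearIndependent_single_one (ZMod 2) ℕ
  exact ⟨Function.invFun g, Function.invFun_surjective g.injective⟩

end Pool.Agent.H110.PC
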