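import Mathlib
import Pool.Agent.H110.PC.Diag

/-! Two countably pracompact Boolean groups whose product is not countably pracompact. -/

namespace Pool.Agent.H110.PC

open Filter Set Topology Cardinal

/-- Countable pracompactness. -/
def CP (X : Type*) [TopologicalSpace X] : Prop :=
  ∃ A : Set X, Dense A ∧ ∀ B : Set X, B ⊆ A → B.Infinite → ∃ x : X, ∀ U ∈ 𝓝 x, (U ∩ B).Infinite

lemma CP.image {X Y : Type*} [TopologicalSpace X] [TopologicalSpace Y] (h : CP X) (f : X → Y)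
    (hf : Continuous f) (hs : Function.Surjective f) : CP Y := by
  obtain ⟨A, hA, hB⟩ := h
  refine ⟨f '' A, hs.denseRange.dense_image hf hA, ?_⟩
  intro B hBA hBinf
  obtain ⟨b0, hb0⟩ := hBinf.nonempty
  have : Nonempty X := ⟨(hBA hb0).choose⟩
  choose! g hg1 hg2 using fun b (hb : b ∈ B) => hBA hb
  have hginj : Set.InjOn g B := by
    intro b hb b' hb' h
    rw [← hg2 b hb, ← hg2 b' hb', h]
  obtain ⟨x, hx⟩ := hB (g '' B) (by rintro _ ⟨b, hb, rfl⟩; exact hg1 b hb) (hBinf.image hginj)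
  refine ⟨f x, fun U hU => ?_⟩
  have h1 := hx (f ⁻¹' U) (hf.continuousAt.preimage_mem_nhds hU)
  have h2 : Set.InjOn f (f ⁻¹' U ∩ g '' B) := by
    rintro _ ⟨_, b, hb, rfl⟩ _ ⟨_, b', hb', rfl⟩ heq
    rw [hg2 b hb, hg2 b' hb'] at heq
    rw [heq]
  refine (h1.image h2).mono ?_
  rintro _ ⟨_, ⟨hU', b, hb, rfl⟩, rfl⟩
  refine ⟨hU', ?_⟩
  rw [hg2 b hb]; exact hb

lemma ultra_infinite {r : Ultrafilter ℕ} (hr : (r : Filter ℕ) ≤ cofinite) {s : Set ℕ}
    (hs : s ∈ r) : s.Infinite := by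
  intro hfin
  have h1 : sᶜ ∈ r := hr hfin.compl_mem_cofinite
  exact Ultrafilter.compl_notMem_iff.mpr hs h1

lemma cp_Gr {u q : Sq → Ultrafilter ℕ} (h : Good u q) : CP (Gr q) := by
  set evG : D → Gr q := fun d => ⟨ev d, ev_mem q d⟩ with hevG
  have hinj : Function.Injective evG := by
    intro x y hxy
    exact ev_injective (congrArg Subtype.val hxy)
  refine ⟨Set.range evG, ?_, ?_⟩
  · intro x
    rw [closure_subtype]
    have h1 : (Subtype.val '' Set.range evG : Set E) = Set.range ev := by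
      rw [← Set.range_comp]; rfl
    rw [h1]
    obtain ⟨e, γ, hx⟩ := (mem_Gr q _).mp x.2
    rw [← hx]
    exact rep_mem_closure q _
  · intro B hB hBinf
    have hBi : ({d : D | evG d ∈ B} : Set D).Infinite := by
      intro hfin
      apply hBinf
      apply (hfin.image evG).subset
      intro b hb
      obtain ⟨d, hd⟩ := hB hb
      exact ⟨d, by rw [Set.mem_ofPred_eq, hd]; exact hb, hd⟩
    have hinf : Infinite {d : D // evG d ∈ B} := hBi.to_subtype
    obtain ⟨φ, hφ1, hφ2⟩ := exists_li_seq (fun d : {d : D // evG d ∈ B} => (d : D))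
      Subtype.val_injective
    set f : Sq := ⟨_, hφ2⟩ with hf
    refine ⟨⟨lm (q f) f.1, lm_mem q f⟩, fun U hU => ?_⟩
    have ht : Tendsto (fun t => evG (f.1 t)) (q f : Filter ℕ)
        (𝓝 (⟨lm (q f) f.1, lm_mem q f⟩ : Gr q)) := by
      rw [tendsto_subtype_rng]
      exact tendsto_lm (q f) f.1
    have h1 := ultra_infinite (h.qcof f) (ht hU)
    have h2 : Function.Injective (fun t => evG (f.1 t)) := by
      intro s t hst
      exact hφ1 (Subtype.ext (hinj hst))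
    refine (h1.image h2.injOn).mono ?_
    rintro _ ⟨t, ht', rfl⟩
    exact ⟨ht', (φ t).2⟩

lemma acc_ultra {X : Type*} [TopologicalSpace X] (w : ℕ → X) (z : X)
    (hz : ∀ U ∈ 𝓝 z, (U ∩ Set.range w).Infinite) :
    ∃ r : Ultrafilter ℕ, (r : Filter ℕ) ≤ cofinite ∧ Tendsto w (r : Filter ℕ) (𝓝 z) := by
  have hne : NeBot (cofinite ⊓ comap w (𝓝 z)) := by
    rw [← forall_mem_nonempty_iff_neBot]
    intro s hs
    rw [mem_inf_iff_superset] at hs
    obtain ⟨X, hX, V, hV, hs⟩ := hs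
    rw [mem_comap] at hV
    obtain ⟨U, hU, hUV⟩ := hV
    have h1 : (w ⁻¹' U).Infinite := by
      intro hfin
      apply hz U hU
      apply (hfin.image w).subset
      rintro _ ⟨hy, t, rfl⟩
      exact ⟨t, hy, rfl⟩
    have h2 : ((w ⁻¹' U) \ Xᶜ).Infinite := h1.sdiff (mem_cofinite.mp hX)
    obtain ⟨t, ht1, ht2⟩ := h2.nonempty
    exact ⟨t, hs ⟨not_not.mp ht2, hUV ht1⟩⟩
  refine ⟨Ultrafilter.of (cofinite ⊓ comap w (𝓝 z)), ?_, ?_⟩
  · exact (Ultrafilter.of_le _).trans inf_le_left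
  · rw [tendsto_iff_comap]
    exact (Ultrafilter.of_le _).trans inf_le_right

lemma tendsto_eval {q : Sq → Ultrafilter ℕ} {w : ℕ → Gr q} {r : Ultrafilter ℕ} {z : Gr q}
    (h : Tendsto w (r : Filter ℕ) (𝓝 z)) (Φ : D →ₗ[ZMod 2] ZMod 2) :
    ∀ᶠ k in (r : Filter ℕ), (w k : E) Φ = (z : E) Φ := by
  have h1 : Tendsto (fun k => (w k : E) Φ) (r : Filter ℕ) (𝓝 ((z : E) Φ)) := by
    have hc : Continuous (fun x : Gr q => (x : E) Φ) :=
      (continuous_apply Φ).comp continuous_subtype_val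
    exact (hc.tendsto z).comp h
  have h2 : {(z : E) Φ} ∈ 𝓝 ((z : E) Φ) := (isOpen_discrete _).mem_nhds rfl
  exact h1 h2

/-- The bad families of sets. -/
def Zp (q : Sq → Ultrafilter ℕ) (p : Par) : Set (Set ℕ) :=
  {S | rep q p.2.1 (pres p.1 p.2.2 S) = 1}

lemma exists_pivots (c : ℕ → (Sq →₀ ZMod 2)) (h : (⋃ n, ((c n).support : Set Sq)).Infinite) :
    ∃ (ψ : ℕ → ℕ) (piv : ℕ → Sq), Function.Injective ψ ∧ (∀ k, piv k ∈ (c (ψ k)).support) ∧
      (∀ j k, j < k → piv k ∉ (c (ψ j)).support) := by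
  classical
  obtain ⟨y, hy1, hy2⟩ := exists_seq_of_forall_finset_exists
    (fun p : ℕ × Sq => p.2 ∈ (c p.1).support) (fun p p' => p'.2 ∉ (c p.1).support) (by
      intro s _
      have hfin : ((s.biUnion (fun p => (c p.1).support) : Finset Sq) : Set Sq).Finite :=
        Finset.finite_toSet _
      obtain ⟨f, hf1, hf2⟩ := (h.sdiff hfin).nonempty
      obtain ⟨n, hn⟩ := Set.mem_iUnion.mp hf1
      refine ⟨(n, f), hn, fun p hp hmem => hf2 ?_⟩
      rw [Finset.mem_coe, Finset.mem_biUnion]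
      exact ⟨p, hp, hmem⟩)
  refine ⟨fun k => (y k).1, fun k => (y k).2, ?_, hy1, fun j k hjk => hy2 j k hjk⟩
  intro j k hjk
  have hjk' : (y j).1 = (y k).1 := hjk
  rcases lt_trichotomy j k with hlt | heq | hlt
  · have h1 := hy2 j k hlt
    rw [hjk'] at h1
    exact absurd (hy1 k) h1
  · exact heq
  · have h1 := hy2 k j hlt
    rw [← hjk'] at h1
    exact absurd (hy1 j) h1

lemma supp_inj : Function.Injective (fun c : Sq →₀ ZMod 2 => c.support) := by
  intro c c' h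
  ext f
  have h' : c.support = c'.support := h
  by_cases hf : f ∈ c.support
  · have hf' : f ∈ c'.support := h' ▸ hf
    have a := (zmod2_cases (c f)).resolve_left (Finsupp.mem_support_iff.mp hf)
    have b := (zmod2_cases (c' f)).resolve_left (Finsupp.mem_support_iff.mp hf')
    rw [a, b]
  · have hf' : f ∉ c'.support := h' ▸ hf
    rw [Finsupp.notMem_support_iff.mp hf, Finsupp.notMem_support_iff.mp hf']

lemma range_finite (c : ℕ → (Sq →₀ ZMod 2)) (h : ¬ (⋃ n, ((c n).support : Set Sq)).Infinite) :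
    (Set.range c).Finite := by
  classical
  rw [Set.not_infinite] at h
  apply Set.Finite.of_finite_image (f := fun c : Sq →₀ ZMod 2 => c.support) _ supp_inj.injOn
  apply (Finset.finite_toSet (h.toFinset.powerset)).subset
  rintro _ ⟨_, ⟨n, rfl⟩, rfl⟩
  rw [Finset.mem_coe, Finset.mem_powerset]
  intro f hf
  rw [Set.Finite.mem_toFinset]
  exact Set.mem_iUnion.mpr ⟨n, hf⟩

/-- Agreement of the representation maps on finitely supported data. -/
lemma rep_congr (q q' : Sq → Ultrafilter ℕ) (e : D) (γ : Sq →₀ ZMod 2)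
    (h : ∀ f ∈ γ.support, q f = q' f) : rep q (e, γ) = rep q' (e, γ) := by
  funext Φ
  rw [rep_apply, rep_apply]
  congr 1
  apply Finset.sum_congr rfl
  intro f hf
  rw [h f hf]

/-- Existence of the family of ultrafilters, by recursion along a well-order. -/
theorem exists_family : ∃ (_ : LinearOrder Sq) (u q : Sq → Ultrafilter ℕ), Good u q ∧
    ∀ f p, (∀ g ∈ p.2.1.2.support, g < f) → ¬ ∀ S : Set ℕ, (S ∈ u f ↔ S ∈ Zp q p) := by
  classical
  obtain ⟨lo, hwf⟩ := exists_wellFoundedLT Sq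
  have step : ∀ (f : Sq) (q' : Sq → Ultrafilter ℕ), ∃ x : Ultrafilter ℕ × Ultrafilter ℕ,
      (x.1 : Filter ℕ) ≤ cofinite ∧ ad f.1 ∈ x.1 ∧ (∀ S : Set ℕ, pr ⁻¹' S ∈ x.2 ↔ S ∈ x.1) ∧
      (∀ X ∈ big, X ∈ x.2) ∧ (x.2 : Filter ℕ) ≤ cofinite ∧
      ∀ p, ¬ ∀ S : Set ℕ, (S ∈ x.1 ↔ S ∈ Zp q' p) := by
    intro f q'
    obtain ⟨u, hu1, hu2, hu3⟩ := diag exists_surj_par (Zp q') (ad f.1) (ad_infinite f.1)
    obtain ⟨q, hq1, hq2, hq3⟩ := exists_block_ultrafilter u hu1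
    exact ⟨(u, q), hu1, hu2, hq1, hq2, hq3, hu3⟩
  choose c hc using step
  let x : Sq → Ultrafilter ℕ × Ultrafilter ℕ := WellFounded.fix hwf.wf
    (fun f ih => c f (fun h => if hh : h < f then (ih h hh).2 else pure 0))
  have hx : ∀ f, x f = c f (fun h => if h < f then (x h).2 else pure 0) := by
    intro f
    have := WellFounded.fix_eq hwf.wf
      (fun f (ih : ∀ h, h < f → Ultrafilter ℕ × Ultrafilter ℕ) =>
        c f (fun h => if hh : h < f then (ih h hh).2 else pure 0)) f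
    exact this
  refine ⟨lo, fun f => (x f).1, fun f => (x f).2, ⟨?_, ?_, ?_, ?_, ?_⟩, ?_⟩
  · intro f; rw [hx f]; exact (hc f _).1
  · intro f; rw [hx f]; exact (hc f _).2.1
  · intro f; rw [hx f]; exact (hc f _).2.2.1
  · intro f; rw [hx f]; exact (hc f _).2.2.2.1
  · intro f; rw [hx f]; exact (hc f _).2.2.2.2.1
  · intro f p hp hS
    apply (hc f (fun h => if h < f then (x h).2 else pure 0)).2.2.2.2.2 p
    intro S
    rw [← hx f, hS S]
    unfold Zp
    rw [Set.mem_ofPred_eq, Set.mem_ofPred_eq]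
    have : rep (fun h => if h < f then (x h).2 else pure 0) (p.2.1.1, p.2.1.2) =
        rep (fun h => (x h).2) (p.2.1.1, p.2.1.2) := by
      apply rep_congr
      intro g hg
      rw [if_pos (hp g hg)]
    have h2 : p.2.1 = (p.2.1.1, p.2.1.2) := rfl
    rw [h2, this]

theorem not_cp_sq [LinearOrder Sq] {u q : Sq → Ultrafilter ℕ} (h0 : Good u q)
    (hz : ∀ f p, (∀ g ∈ p.2.1.2.support, g < f) → ¬ ∀ S : Set ℕ, (S ∈ u f ↔ S ∈ Zp q p)) :
    ¬ CP (Gr q × Gr q) := by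
  classical
  rintro ⟨A, hA, hacc⟩
  have hinf : Infinite (Gr q) :=
    Infinite.of_injective (fun d : D => (⟨ev d, ev_mem q d⟩ : Gr q))
      (fun x y hxy => ev_injective (congrArg Subtype.val hxy))
  -- a sequence in the dense set with distinct coordinates and distinct sums
  obtain ⟨w, hw1, hw2⟩ := exists_seq_of_forall_finset_exists
    (fun x : Gr q × Gr q => x ∈ A)
    (fun x y => x.1 ≠ y.1 ∧ x.2 ≠ y.2 ∧ x.1 + x.2 ≠ y.1 + y.2) (by
      intro s _
      have hopen : IsOpen ({y : Gr q × Gr q | y.1 ∉ ((s.image Prod.fst : Finset (Gr q)) : Set (Gr q)) ∧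
          y.2 ∉ ((s.image Prod.snd : Finset (Gr q)) : Set (Gr q)) ∧
          y.1 + y.2 ∉ ((s.image (fun x => x.1 + x.2) : Finset (Gr q)) : Set (Gr q))}) := by
        apply IsOpen.inter
        · exact (Finset.finite_toSet _).isClosed.isOpen_compl.preimage continuous_fst
        apply IsOpen.inter
        · exact (Finset.finite_toSet _).isClosed.isOpen_compl.preimage continuous_snd
        · exact (Finset.finite_toSet _).isClosed.isOpen_compl.preimage
            (continuous_fst.add continuous_snd)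
      obtain ⟨a, ha⟩ := Infinite.exists_notMem_finset (s.image Prod.fst : Finset (Gr q))
      obtain ⟨b, hb⟩ := Infinite.exists_notMem_finset ((s.image Prod.snd : Finset (Gr q)) ∪
        (s.image (fun x => x.1 + x.2 - a)))
      rw [Finset.mem_union, not_or] at hb
      obtain ⟨y, hyA, hy⟩ := hA.exists_mem_open hopen ⟨(a, b), ha, hb.1, by
        intro hmem
        rw [Finset.mem_coe, Finset.mem_image] at hmem
        obtain ⟨x, hx, hxe⟩ := hmem
        apply hb.2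
        rw [Finset.mem_image]
        exact ⟨x, hx, by rw [hxe]; simp⟩⟩
      refine ⟨y, hyA, fun x hx => ⟨fun heq => hy.1 ?_, fun heq => hy.2.1 ?_, fun heq => hy.2.2 ?_⟩⟩
      · rw [Finset.mem_coe, ← heq]; exact Finset.mem_image_of_mem _ hx
      · rw [Finset.mem_coe, ← heq]; exact Finset.mem_image_of_mem _ hx
      · rw [Finset.mem_coe, ← heq]; exact Finset.mem_image_of_mem (fun x => x.1 + x.2) hx)
  have hw2' : ∀ m n, m ≠ n → (w m).1 ≠ (w n).1 ∧ (w m).2 ≠ (w n).2 ∧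
      (w m).1 + (w m).2 ≠ (w n).1 + (w n).2 := by
    intro m n hmn
    rcases lt_or_gt_of_ne hmn with hlt | hlt
    · exact hw2 m n hlt
    · exact ⟨(hw2 n m hlt).1.symm, (hw2 n m hlt).2.1.symm, (hw2 n m hlt).2.2.symm⟩
  have hwinj : Function.Injective w := by
    intro m n hmn
    by_contra hne
    exact (hw2' m n hne).1 (by rw [hmn])
  -- accumulation along ultrafilters
  have hult : ∀ ψ : ℕ → ℕ, Function.Injective ψ → ∃ (r : Ultrafilter ℕ) (z : Gr q × Gr q),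
      (r : Filter ℕ) ≤ cofinite ∧
      (∀ Φ, ∀ᶠ k in (r : Filter ℕ), ((w (ψ k)).1 : E) Φ = (z.1 : E) Φ) ∧
      (∀ Φ, ∀ᶠ k in (r : Filter ℕ), ((w (ψ k)).2 : E) Φ = (z.2 : E) Φ) := by
    intro ψ hψ
    obtain ⟨z, hz⟩ := hacc (Set.range (w ∘ ψ)) (by rintro _ ⟨k, rfl⟩; exact hw1 _)
      (Set.infinite_range_of_injective (hwinj.comp hψ))
    obtain ⟨r, hr, ht⟩ := acc_ultra (w ∘ ψ) z hz
    refine ⟨r, z, hr, ?_, ?_⟩
    · exact tendsto_eval ((continuous_fst.tendsto z).comp ht)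
    · exact tendsto_eval ((continuous_snd.tendsto z).comp ht)
  -- representations
  have hrep0 : ∀ n, ∃ x : D × (Sq →₀ ZMod 2), rep q x = ((w n).1 : E) := by
    intro n
    obtain ⟨e, γ, h⟩ := (mem_Gr q _).mp (w n).1.2
    exact ⟨(e, γ), h⟩
  have hrep1 : ∀ n, ∃ x : D × (Sq →₀ ZMod 2), rep q x = ((w n).2 : E) := by
    intro n
    obtain ⟨e, γ, h⟩ := (mem_Gr q _).mp (w n).2.2
    exact ⟨(e, γ), h⟩
  choose x0 hx0 using hrep0
  choose x1 hx1 using hrep1
  by_cases hA0 : (⋃ n, (((x0 n).2).support : Set Sq)).Infinite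
  · obtain ⟨ψ, piv, hψ, hp1, hp2⟩ := exists_pivots (fun n => (x0 n).2) hA0
    obtain ⟨r, z, hr, hl, _⟩ := hult ψ hψ
    obtain ⟨e, γ, hzrep⟩ := (mem_Gr q _).mp z.1.2
    refine caseA h0 (fun k => (x0 (ψ k)).1) (fun k => (x0 (ψ k)).2) piv hp1 hp2 e γ r hr ?_
    intro Φ
    filter_upwards [hl Φ] with k hk
    rw [← hx0, ← hzrep] at hk
    exact hk
  by_cases hA1 : (⋃ n, (((x1 n).2).support : Set Sq)).Infinite
  · obtain ⟨ψ, piv, hψ, hp1, hp2⟩ := exists_pivots (fun n => (x1 n).2) hA1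
    obtain ⟨r, z, hr, _, hl⟩ := hult ψ hψ
    obtain ⟨e, γ, hzrep⟩ := (mem_Gr q _).mp z.2.2
    refine caseA h0 (fun k => (x1 (ψ k)).1) (fun k => (x1 (ψ k)).2) piv hp1 hp2 e γ r hr ?_
    intro Φ
    filter_upwards [hl Φ] with k hk
    rw [← hx1, ← hzrep] at hk
    exact hk
  -- both constant on an infinite set
  have hfin0 := range_finite _ hA0
  have hfin1 := range_finite _ hA1
  have hfin : Finite (Set.range (fun n => ((x0 n).2, (x1 n).2))) := by
    apply Set.Finite.to_subtype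
    apply (hfin0.prod hfin1).subset
    rintro _ ⟨n, rfl⟩
    exact ⟨⟨n, rfl⟩, ⟨n, rfl⟩⟩
  obtain ⟨⟨y, hy⟩, hfib⟩ := Finite.exists_infinite_fiber
    (Set.rangeFactorization (fun n => ((x0 n).2, (x1 n).2)))
  set N : Type := ↥((Set.rangeFactorization (fun n => ((x0 n).2, (x1 n).2))) ⁻¹' {⟨y, hy⟩}) with hN
  have hNc : ∀ n : N, (x0 n).2 = y.1 ∧ (x1 n).2 = y.2 := by
    intro n
    have h2 : (Set.rangeFactorization (fun n => ((x0 n).2, (x1 n).2))) n = ⟨y, hy⟩ := n.2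
    have h3 : ((x0 n).2, (x1 n).2) = y := congrArg Subtype.val h2
    exact ⟨congrArg Prod.fst h3, congrArg Prod.snd h3⟩
  have hd0 : Function.Injective (fun n : N => (x0 n).1) := by
    intro m n hmn
    by_contra hne
    have hne' : (m : ℕ) ≠ n := fun h => hne (Subtype.ext h)
    apply (hw2' _ _ hne').1
    apply Subtype.ext
    rw [← hx0, ← hx0]
    congr 1
    exact Prod.ext hmn ((hNc m).1.trans (hNc n).1.symm)
  have hd1 : Function.Injective (fun n : N => (x1 n).1) := by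
    intro m n hmn
    by_contra hne
    have hne' : (m : ℕ) ≠ n := fun h => hne (Subtype.ext h)
    apply (hw2' _ _ hne').2.1
    apply Subtype.ext
    rw [← hx1, ← hx1]
    congr 1
    exact Prod.ext hmn ((hNc m).2.trans (hNc n).2.symm)
  have hd2 : Function.Injective (fun n : N => (x0 n).1 + (x1 n).1) := by
    intro m n hmn
    by_contra hne
    have hne' : (m : ℕ) ≠ n := fun h => hne (Subtype.ext h)
    apply (hw2' _ _ hne').2.2
    apply Subtype.ext
    rw [AddSubgroup.coe_add, AddSubgroup.coe_add, ← hx0, ← hx0, ← hx1, ← hx1, ← map_add, ← map_add]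
    congr 1
    refine Prod.ext hmn ?_
    show (x0 m).2 + (x1 m).2 = (x0 n).2 + (x1 n).2
    rw [(hNc m).1, (hNc m).2, (hNc n).1, (hNc n).2]
  obtain ⟨φ1, hφ1, hli1⟩ := exists_li_seq (fun n : N => (x0 n).1) hd0
  obtain ⟨φ2, hφ2, hli2⟩ := exists_li_seq (fun k : ℕ => (x1 (φ1 k)).1) (hd1.comp hφ1)
  obtain ⟨φ3, hφ3, hli3⟩ := exists_li_seq (fun k : ℕ => (x0 (φ1 (φ2 k))).1 + (x1 (φ1 (φ2 k))).1)
    (hd2.comp (hφ1.comp hφ2))
  set ψ : ℕ → ℕ := fun k => (φ1 (φ2 (φ3 k)) : ℕ) with hψdef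
  have hψ : Function.Injective ψ := by
    intro j k hjk
    exact hφ3 (hφ2 (hφ1 (Subtype.ext hjk)))
  have hL0 : LinearIndependent (ZMod 2) (fun k => (x0 (ψ k)).1) :=
    (hli1.comp φ2 hφ2).comp φ3 hφ3
  have hL1 : LinearIndependent (ZMod 2) (fun k => (x1 (ψ k)).1) := hli2.comp φ3 hφ3
  have hL2 : LinearIndependent (ZMod 2) (fun k => (x0 (ψ k)).1 + (x1 (ψ k)).1) := hli3
  obtain ⟨r, z, hr, hl0, hl1⟩ := hult ψ hψ
  obtain ⟨e0, γ0, hz0⟩ := (mem_Gr q _).mp z.1.2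
  obtain ⟨e1, γ1, hz1⟩ := (mem_Gr q _).mp z.2.2
  have hlim : ∀ (x : D × (Sq →₀ ZMod 2)) (c γ : Sq →₀ ZMod 2) (e : D)
      (Φ : D →ₗ[ZMod 2] ZMod 2), x.2 = c → rep q x Φ = rep q (e, γ) Φ →
      Φ x.1 = rep q (e, γ - c) Φ := by
    rintro ⟨x, c⟩ _ γ e Φ rfl h
    have h3 : rep q (x, c) = ev x + rep q (0, c) := by
      rw [← rep_zero_right q x, ← map_add]; simp
    have h4 : rep q (e, γ - c) = rep q (e, γ) - rep q (0, c) := by
      rw [← map_sub]; simp
    rw [h3, Pi.add_apply, ev_apply] at h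
    rw [h4, Pi.sub_apply, ← h]
    simp
  have hlim0 : ∀ Φ, ∀ᶠ k in (r : Filter ℕ), Φ ((x0 (ψ k)).1) = rep q (e0, γ0 - y.1) Φ := by
    intro Φ
    filter_upwards [hl0 Φ] with k hk
    rw [← hx0, ← hz0] at hk
    exact hlim _ _ _ _ _ (hNc _).1 hk
  have hlim1 : ∀ Φ, ∀ᶠ k in (r : Filter ℕ), Φ ((x1 (ψ k)).1) = rep q (e1, γ1 - y.2) Φ := by
    intro Φ
    filter_upwards [hl1 Φ] with k hk
    rw [← hx1, ← hz1] at hk
    exact hlim _ _ _ _ _ (hNc _).2 hk
  have hlim2 : ∀ Φ : D →ₗ[ZMod 2] ZMod 2, ∀ᶠ k in (r : Filter ℕ),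
      Φ ((x0 (ψ k)).1 + (x1 (ψ k)).1) = rep q (e0 + e1, (γ0 - y.1) + (γ1 - y.2)) Φ := by
    intro Φ
    filter_upwards [hlim0 Φ, hlim1 Φ] with k hk0 hk1
    have : (e0 + e1, (γ0 - y.1) + (γ1 - y.2)) = (e0, γ0 - y.1) + (e1, γ1 - y.2) := rfl
    rw [this, map_add Φ, map_add (rep q), Pi.add_apply, ← hk0, ← hk1]
  -- the core step
  have core : ∀ (d δ : ℕ → D) (hδ : LinearIndependent (ZMod 2) δ) (e ε : D)
      (γ η : Sq →₀ ZMod 2),
      (∀ Φ : D →ₗ[ZMod 2] ZMod 2, ∀ᶠ k in (r : Filter ℕ), Φ (d k) = rep q (e, γ) Φ) →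
      (∀ Φ : D →ₗ[ZMod 2] ZMod 2, ∀ᶠ k in (r : Filter ℕ), Φ (δ k) = rep q (ε, η) Φ) →
      ∀ f ∈ γ.support, (∀ g ∈ η.support, g < f) → False := by
    intro d δ hδ e ε γ η hd1 hd2 f hf hη
    obtain ⟨T, hT⟩ := caseC h0 d e γ f hf r hd1
    apply hz f (⟨δ, hδ⟩, (ε, η), T) hη
    intro S
    rw [hT S]
    show _ ↔ rep q (ε, η) (pres ⟨δ, hδ⟩ T S) = 1
    have h6 : ∀ᶠ k in (r : Filter ℕ), Psi S (T k) = rep q (ε, η) (pres ⟨δ, hδ⟩ T S) := by
      filter_upwards [hd2 (pres ⟨δ, hδ⟩ T S)] with k hk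
      rw [← hk]
      exact (pres_apply ⟨δ, hδ⟩ T S k).symm
    constructor
    · intro h7
      obtain ⟨k, hk1, hk2⟩ := (h6.and h7).exists
      rw [← hk1, hk2]
    · intro h7
      filter_upwards [h6] with k hk
      rw [hk, h7]
  -- nonempty supports
  have hne : ∀ (d : ℕ → D) (hd : LinearIndependent (ZMod 2) d) (e : D) (γ : Sq →₀ ZMod 2),
      (∀ Φ : D →ₗ[ZMod 2] ZMod 2, ∀ᶠ k in (r : Filter ℕ), Φ (d k) = rep q (e, γ) Φ) →
      γ.support.Nonempty := by
    intro d hd e γ hl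
    by_contra hemp
    rw [Finset.not_nonempty_iff_eq_empty, Finsupp.support_eq_empty] at hemp
    apply caseC0 d hd e r hr
    intro Φ
    filter_upwards [hl Φ] with k hk
    rw [hk, hemp, rep_zero_right, ev_apply]
  set g0 := γ0 - y.1 with hg0
  set g1 := γ1 - y.2 with hg1
  have hn0 := hne _ hL0 _ _ hlim0
  have hn1 := hne _ hL1 _ _ hlim1
  obtain ⟨f, hf, hmax⟩ : ∃ f ∈ g0.support ∪ g1.support, ∀ g ∈ g0.support ∪ g1.support, g ≤ f :=
    ⟨(g0.support ∪ g1.support).max' (hn0.mono Finset.subset_union_left), Finset.max'_mem _ _,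
      fun g hg => Finset.le_max' _ _ hg⟩
  have hlt : ∀ η : Sq →₀ ZMod 2, η.support ⊆ g0.support ∪ g1.support → f ∉ η.support →
      ∀ g ∈ η.support, g < f := by
    intro η hη hfη g hg
    exact lt_of_le_of_ne (hmax g (hη hg)) (fun h => hfη (h ▸ hg))
  by_cases h0f : f ∈ g0.support
  · by_cases h1f : f ∈ g1.support
    · -- both: use the sum
      apply core _ _ hL2 _ _ _ _ hlim0 hlim2 f h0f
      apply hlt _ Finsupp.support_add
      rw [Finsupp.notMem_support_iff, Finsupp.add_apply]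
      rw [(zmod2_cases (g0 f)).resolve_left (Finsupp.mem_support_iff.mp h0f),
        (zmod2_cases (g1 f)).resolve_left (Finsupp.mem_support_iff.mp h1f)]
      decide
    · exact core _ _ hL1 _ _ _ _ hlim0 hlim1 f h0f (hlt _ Finset.subset_union_right h1f)
  · have h1f : f ∈ g1.support := (Finset.mem_union.mp hf).resolve_left h0f
    exact core _ _ hL0 _ _ _ _ hlim1 hlim0 f h1f (hlt _ Finset.subset_union_left h0f)

end Pool.Agent.H110.PC
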